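import Pool.Agent.Helper27.KS.GoalsF

/-!
# Sums over the elements of a poset (goal FSM of project KS)
-/

namespace Pool.Agent.Helper56.KS

open Finset
open Pool.Agent.Helper27.KS Pool.Agent.Helper75.KS
open Pool.Agent.Helper89.GP (LX po Ex hh gp df Ex_sub)

/-- A tail of the sum of the inverse cubes. -/
theorem sum_inv_cube (m N : ℕ) (h : m ≤ N) :
    ∑ j ∈ Ico m N, 1 / (1 + (j : ℝ)) ^ 3 ≤ 2 / (1 + (m : ℝ)) - 2 / (1 + (N : ℝ)) := by
  induction N, h using Nat.le_induction with
  | base => simp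
  | succ k hk ih =>
    rw [Finset.sum_Ico_succ_top hk]
    have hk0 : (0 : ℝ) ≤ (k : ℝ) := Nat.cast_nonneg k
    have h1 : 1 / (1 + (k : ℝ)) ^ 3 ≤ 2 / (1 + (k : ℝ)) - 2 / (1 + ((k + 1 : ℕ) : ℝ)) := by
      push_cast
      have e : 2 / (1 + (k : ℝ)) - 2 / (1 + ((k : ℝ) + 1)) =
          2 / ((1 + (k : ℝ)) * (1 + ((k : ℝ) + 1))) := by
        field_simp
        ring
      rw [e, div_le_div_iff₀ (by positivity) (by positivity)]
      nlinarith [mul_nonneg hk0 hk0, mul_nonneg hk0 (mul_nonneg hk0 hk0)]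
    linarith

/-- The sum of inverse cubes over points with a bounded number in each cell. -/
theorem sum_cells {ι : Type*} (s : Finset ι) (t : ι → ℝ) (B C : ℝ) (hC : 0 ≤ C) (hB : 0 ≤ B)
    (ht : ∀ q ∈ s, C ≤ t q)
    (hc : ∀ j : ℕ, ((s.filter fun q => ⌊t q⌋₊ = j).card : ℝ) ≤ B) :
    ∑ q ∈ s, 1 / (1 + t q) ^ 3 ≤ 4 * B / (1 + C) := by
  have hmaps : ∀ q ∈ s, ⌊t q⌋₊ ∈ Ico ⌊C⌋₊ ((s.sup fun q => ⌊t q⌋₊) + 1 + ⌊C⌋₊) := by
    intro q hq
    rw [Finset.mem_Ico]
    refine ⟨Nat.floor_mono (ht q hq), ?_⟩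
    have h1 : ⌊t q⌋₊ ≤ s.sup fun q => ⌊t q⌋₊ := Finset.le_sup (f := fun q => ⌊t q⌋₊) hq
    omega
  rw [← Finset.sum_fiberwise_of_maps_to hmaps]
  have h1 : ∀ j ∈ Ico ⌊C⌋₊ ((s.sup fun q => ⌊t q⌋₊) + 1 + ⌊C⌋₊),
      ∑ q ∈ s.filter (fun q => ⌊t q⌋₊ = j), 1 / (1 + t q) ^ 3 ≤ B * (1 / (1 + (j : ℝ)) ^ 3) := by
    intro j _
    have hj : (0 : ℝ) ≤ (j : ℝ) := Nat.cast_nonneg j
    calc ∑ q ∈ s.filter (fun q => ⌊t q⌋₊ = j), 1 / (1 + t q) ^ 3
        ≤ ∑ q ∈ s.filter (fun q => ⌊t q⌋₊ = j), 1 / (1 + (j : ℝ)) ^ 3 := by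
          refine Finset.sum_le_sum fun q hq => ?_
          rw [Finset.mem_filter] at hq
          have h2 : (j : ℝ) ≤ t q := by
            rw [← hq.2]
            exact Nat.floor_le (hC.trans (ht q hq.1))
          exact one_div_le_one_div_of_le (by positivity) (by gcongr)
      _ = ((s.filter fun q => ⌊t q⌋₊ = j).card : ℝ) * (1 / (1 + (j : ℝ)) ^ 3) := by
          rw [Finset.sum_const, nsmul_eq_mul]
      _ ≤ B * (1 / (1 + (j : ℝ)) ^ 3) := by
          refine mul_le_mul_of_nonneg_right (hc j) (by positivity)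
  refine (Finset.sum_le_sum h1).trans ?_
  rw [← Finset.mul_sum]
  have h3 := sum_inv_cube ⌊C⌋₊ ((s.sup fun q => ⌊t q⌋₊) + 1 + ⌊C⌋₊) (by omega)
  have h4 : (0 : ℝ) ≤ 2 / (1 + (((s.sup fun q => ⌊t q⌋₊) + 1 + ⌊C⌋₊ : ℕ) : ℝ)) := by positivity
  have h5 : (2 : ℝ) / (1 + (⌊C⌋₊ : ℝ)) ≤ 4 / (1 + C) := by
    have h6 : C < (⌊C⌋₊ : ℝ) + 1 := Nat.lt_floor_add_one C
    have h7 : (0 : ℝ) ≤ (⌊C⌋₊ : ℝ) := Nat.cast_nonneg _
    rw [div_le_div_iff₀ (by positivity) (by positivity)]
    linarith
  calc B * ∑ j ∈ Ico ⌊C⌋₊ ((s.sup fun q => ⌊t q⌋₊) + 1 + ⌊C⌋₊), 1 / (1 + (j : ℝ)) ^ 3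
      ≤ B * (4 / (1 + C)) := mul_le_mul_of_nonneg_left (by linarith) hB
    _ = 4 * B / (1 + C) := by ring

theorem gp_eq {n : ℕ} (R : Fin n → Fin n → Prop) (x q : Fin n) : gp R x q = hh R q - hh R x := by
  unfold gp hh df
  rw [Ex_sub]

theorem fsm (hcnt : CntStmt) : FsmStmt := by
  refine ⟨180, by norm_num, ?_⟩
  intro n R x S C hne hS hd hC
  have hS0 : 0 < S := by linarith
  have hcell : ∀ u : ℝ, ((univ.filter fun z : Fin n => u ≤ hh R z ∧ hh R z < u + S).card : ℝ) ≤
      15 * S := fun u => hcnt n R S u hne hS hd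
  constructor
  · have key := sum_cells (univ.filter (fun q => C * S ≤ |gp R x q|))
      (fun q => |gp R x q| / S) (45 * S) C hC (by linarith) ?_ ?_
    · refine key.trans (le_of_eq ?_)
      ring
    · intro q hq
      rw [Finset.mem_filter] at hq
      rw [le_div_iff₀ hS0]
      exact hq.2
    · intro j
      have hsub : (univ.filter (fun q => C * S ≤ |gp R x q|)).filter
          (fun q => ⌊|gp R x q| / S⌋₊ = j) ⊆
          ((univ.filter fun z : Fin n => hh R x + j * S ≤ hh R z ∧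
            hh R z < hh R x + j * S + S) ∪
          (univ.filter fun z : Fin n => hh R x - (j + 1) * S ≤ hh R z ∧
            hh R z < hh R x - (j + 1) * S + S)) ∪
          (univ.filter fun z : Fin n => hh R x - j * S ≤ hh R z ∧
            hh R z < hh R x - j * S + S) := by
        intro q hq
        rw [Finset.mem_filter] at hq
        have h0 : 0 ≤ |gp R x q| / S := by positivity
        have h1 : (j : ℝ) * S ≤ |gp R x q| := by
          rw [← le_div_iff₀ hS0, ← hq.2]
          exact Nat.floor_le h0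
        have h2 : |gp R x q| < ((j : ℝ) + 1) * S := by
          rw [← div_lt_iff₀ hS0, ← hq.2]
          exact Nat.lt_floor_add_one _
        rw [gp_eq] at h1 h2
        simp only [Finset.mem_union, Finset.mem_filter, Finset.mem_univ, true_and]
        rcases le_total 0 (hh R q - hh R x) with h3 | h3
        · rw [abs_of_nonneg h3] at h1 h2
          left
          left
          constructor <;> nlinarith
        · rw [abs_of_nonpos h3] at h1 h2
          rcases lt_or_ge (hh R q) (hh R x - (j + 1) * S + S) with h4 | h4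
          · left
            right
            exact ⟨by nlinarith, h4⟩
          · right
            constructor <;> nlinarith
      have hcard := Finset.card_le_card hsub
      have hu1 := Finset.card_union_le ((univ.filter fun z : Fin n => hh R x + j * S ≤ hh R z ∧
            hh R z < hh R x + j * S + S) ∪
          (univ.filter fun z : Fin n => hh R x - (j + 1) * S ≤ hh R z ∧
            hh R z < hh R x - (j + 1) * S + S))
          (univ.filter fun z : Fin n => hh R x - j * S ≤ hh R z ∧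
            hh R z < hh R x - j * S + S)
      have hu2 := Finset.card_union_le (univ.filter fun z : Fin n => hh R x + j * S ≤ hh R z ∧
            hh R z < hh R x + j * S + S)
          (univ.filter fun z : Fin n => hh R x - (j + 1) * S ≤ hh R z ∧
            hh R z < hh R x - (j + 1) * S + S)
      have c1 := hcell (hh R x + j * S)
      have c2 := hcell (hh R x - (j + 1) * S)
      have c3 := hcell (hh R x - j * S)
      have hle := hcard.trans (hu1.trans (Nat.add_le_add_right hu2 _))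
      have hle' : ((((univ.filter (fun q => C * S ≤ |gp R x q|)).filter
          (fun q => ⌊|gp R x q| / S⌋₊ = j)).card : ℕ) : ℝ) ≤ _ := Nat.cast_le.mpr hle
      push_cast at hle'
      linarith
  · have hsub : (univ.filter (fun q => |gp R x q| ≤ C * S)) ⊆
        (range (⌊2 * C⌋₊ + 1)).biUnion fun i => univ.filter fun z : Fin n =>
          (hh R x - C * S + i * S) ≤ hh R z ∧ hh R z < (hh R x - C * S + i * S) + S := by
      intro q hq
      rw [Finset.mem_filter, gp_eq] at hq
      have h1 := abs_le.mp hq.2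
      have h0 : 0 ≤ (hh R q - hh R x + C * S) / S := div_nonneg (by linarith) hS0.le
      rw [Finset.mem_biUnion]
      refine ⟨⌊(hh R q - hh R x + C * S) / S⌋₊, ?_, ?_⟩
      · rw [Finset.mem_range]
        refine Nat.lt_succ_of_le (Nat.floor_mono ?_)
        rw [div_le_iff₀ hS0]
        linarith
      · rw [Finset.mem_filter]
        refine ⟨Finset.mem_univ _, ?_, ?_⟩
        · have h2 := Nat.floor_le h0
          rw [le_div_iff₀ hS0] at h2
          linarith
        · have h2 := Nat.lt_floor_add_one ((hh R q - hh R x + C * S) / S)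
          rw [div_lt_iff₀ hS0] at h2
          linarith
    have hcard := (Finset.card_le_card hsub).trans Finset.card_biUnion_le
    have hle : ((univ.filter (fun q => |gp R x q| ≤ C * S)).card : ℝ) ≤
        ∑ i ∈ range (⌊2 * C⌋₊ + 1), (((univ.filter fun z : Fin n =>
          (hh R x - C * S + i * S) ≤ hh R z ∧ hh R z < (hh R x - C * S + i * S) + S).card : ℕ) :
            ℝ) := by
      rw [← Nat.cast_sum]
      exact Nat.cast_le.mpr hcard
    have hle2 : ∑ i ∈ range (⌊2 * C⌋₊ + 1), (((univ.filter fun z : Fin n =>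
          (hh R x - C * S + i * S) ≤ hh R z ∧ hh R z < (hh R x - C * S + i * S) + S).card : ℕ) :
            ℝ) ≤ ∑ i ∈ range (⌊2 * C⌋₊ + 1), 15 * S :=
      Finset.sum_le_sum fun i _ => hcell _
    rw [Finset.sum_const, Finset.card_range, nsmul_eq_mul] at hle2
    have h5 : ((⌊2 * C⌋₊ + 1 : ℕ) : ℝ) ≤ 2 * C + 1 := by
      push_cast
      have := Nat.floor_le (show 0 ≤ 2 * C by linarith)
      linarith
    nlinarith [hle.trans hle2, mul_le_mul_of_nonneg_right h5 (show 0 ≤ 15 * S by linarith)]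

end Pool.Agent.Helper56.KS
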