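import Pool.Agent.Helper44.KS.GoalsC

/-!
# KS-NQS (MP_480c30_co): the quadratic form is the square of a seminorm
-/

namespace Pool.Agent.Helper56.KS

open Pool.Agent.Helper44.KS

/-- The weights. -/
noncomputable def wt {c : ℝ} (Z : KSys c) (p : Fin Z.n) : ℝ :=
  if p ∈ Z.W Z.S then 1 / √((1 + Z.a p ^ 2) * Z.S) else 0

/-- The weighted vector. -/
noncomputable def vec {c : ℝ} (Z : KSys c) (f : Fin Z.n → ℝ) : EuclideanSpace ℝ (Fin Z.n) :=
  WithLp.toLp 2 fun p => wt Z p * f p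

lemma nq_eq {c : ℝ} (Z : KSys c) (f : Fin Z.n → ℝ) : Z.nq f = ∑ p, (wt Z p * f p) ^ 2 := by
  have hS : 0 < Z.S := lt_of_lt_of_le one_pos Z.one_le
  unfold KSys.nq
  rw [Finset.sum_div, ← Finset.sum_subset (Finset.subset_univ (Z.W Z.S))]
  · refine Finset.sum_congr rfl fun p hp => ?_
    have h1 : 0 < (1 + Z.a p ^ 2) * Z.S := by positivity
    rw [wt, if_pos hp, mul_pow, div_pow, one_pow, Real.sq_sqrt h1.le]
    field_simp
  · intro p _ hp
    rw [wt, if_neg hp]
    ring

lemma sqrt_nq {c : ℝ} (Z : KSys c) (f : Fin Z.n → ℝ) : √(Z.nq f) = ‖vec Z f‖ := by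
  rw [nq_eq, EuclideanSpace.norm_eq]
  congr 1
  refine Finset.sum_congr rfl fun p _ => ?_
  rw [Real.norm_eq_abs, sq_abs]
  rfl

theorem nqs : S_NQS := by
  intro c Z
  refine ⟨?_, ?_, ?_, ?_⟩
  · intro f g
    rw [sqrt_nq, sqrt_nq, sqrt_nq]
    have h : vec Z (fun p => f p + g p) = vec Z f + vec Z g := by
      ext p
      show wt Z p * (f p + g p) = wt Z p * f p + wt Z p * g p
      ring
    rw [h]
    exact norm_add_le _ _
  · intro f t
    rw [sqrt_nq, sqrt_nq]
    have h : vec Z (fun p => t * f p) = t • vec Z f := by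
      ext p
      show wt Z p * (t * f p) = t * (wt Z p * f p)
      ring
    rw [h, norm_smul, Real.norm_eq_abs]
  · intro f
    rw [nq_eq]
    positivity
  · have h : Z.nq = fun f => ∑ p, (wt Z p * f p) ^ 2 := funext fun f => nq_eq Z f
    rw [h]
    fun_prop

end Pool.Agent.Helper56.KS
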